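import Pool.Agent.N808.PR.Cls2
import Pool.Agent.N808.PR.Abs
import Pool.Agent.N808.PR.RTN
import Pool.Agent.N808.PR.RHC
import Pool.Agent.N808.PR.KFL
import Pool.Agent.N808.PR.Root1
import Pool.Agent.N808.PR.POW

/-!
MP_4d1008_ag: models, proper over `ℤ`, which are regular at all points whose residue characteristic
does not divide a given number `n`, in all dimensions, for the schemes whose function fields are
constructed from function fields of arithmetic surfaces by families of varieties of bounded degree,
by adjoining zeros of polynomials of small degree with controlled discriminants, and by radicals.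
The number `n` does not depend on the dimension of the scheme.

Let `k` be a number field. The theorem is about the pairs `(K, P)` of a field `K` and a set `P` of
elements of `K` which are obtained from the pairs `(κ, κ)`, where `κ` is the function field of an
arithmetic surface which is regular at all points at which `n` is invertible, and from varieties of
bounded degree over `k`, by finitely many of the operations of `IsAdmissible`, in any order. Each integral scheme of finite type over `ℤ` with
the function field `K` is birational to an integral scheme, proper over `ℤ`, which is regular at all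
points whose residue characteristic is `0` or a prime number which does not divide `n`. (By the
theorem of Lipman every function field `κ` of transcendence degree one over `k` belongs to a regular
projective arithmetic surface, so that each `n` is allowed; this theorem is not used.)

Examples, where `κ` is such a field.

* Every scheme of finite type over `ℤ` whose function field is that of a variety over the number
  field `k` of dimension `r ≥ 1` and degree at most `δ` has a proper model which is regular at all
  points of residue characteristic `0` or `p > δ ^ 2 ^ (r - 1)` (operation `variety`).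

* The fibre products over `κ` of any number of elliptic curves `y ^ 2 = x ^ 3 + a * x + b` (Weierstrass
  fibrations over the arithmetic surface, with arbitrary degeneration), `a`, `b` in `κ`, if `n` is
  divisible by `6`: the coordinate `x` is transcendental, the polynomials in `x` of degree at most
  `3` over `κ` can be added to `P` (operation `element`), and `y` is a radical. So they have proper
  models which are regular at all points of residue characteristic `0` or `p ≥ 5` (if the surface
  is regular there). For the Legendre curves `y ^ 2 = x * (x - a) * (x - b)` it is sufficient that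
  `n` is even.

* The fibre products over `κ` of any number of varieties `Y i` over `κ` of dimension `r i` and
  degree at most `δ i` (families over the arithmetic surface whose equations depend arbitrarily on
  the point of the surface), if all prime numbers up to `(δ i) ^ 2 ^ (r i)` divide `n`; and their
  radical coverings given by the roots of products of forms of degree at most `s` on the factors,
  if all prime numbers up to `(s * δ i) ^ 2 ^ (r i)` and those which divide the exponents divide
  `n`. The degree of such a product, for example in the Segre embedding, is not bounded.

* The cubic coverings `z ^ 3 + a * z + b = 0` of a scheme with function field `L`, where `a`, `b`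
  and `4 * a ^ 3 + 27 * b ^ 2` are in `P`, if `6 ∣ n`. The quadric bundles `∑ q i j * x i * x j = 0`
  over a scheme with function field `L`, where the leading principal minors of the symmetric matrix
  `q` over `L` are in `P`, if `n` is even.

The proof: an element of `P` is a boundary function on a model if its zeros and poles are in the
boundary. For each pair of the class there are regular projective models over `𝓞[1 / n]` with
normal crossings boundary on which given finitely many elements of `P` are boundary functions.

(1) Log resolution on arithmetic surfaces (`Pool.Agent.N808.AS`). The local rings of a regular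
surface are factorial, so that the divisors of finitely many functions have local equations after a
localization of the charts (`GPRD`). The points at which these divisors have not normal crossings
are finitely many, since the curves on the surface have finite normalizations (`GSNG`, `GNRM`,
`GCL`). We blow up these points; the local rings of the bad points over a blown up point are
quadratic transforms; if this process did not stop there would be an infinite sequence of quadratic
transforms along a valuation, and in such a sequence all functions become monomials after finitely
many steps.

(2) Adjoining one element `z`: the members of `Φ` become boundary functions on a modification of the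
product of a model of `L` with the projective line; this is shown by induction on the degree, using
the derivatives (`N98.RM.p1`). If `z` is a zero of a member of `Φ`, then the zeros of its minimal
polynomial are a component of the boundary, and we restrict to this component (`RC.cutP`).

(3) Families: a general linear projection over `E` makes the variety with the generic point `y`
birational to a hypersurface over `E` with equation `F`. The polynomials which are used in the
elimination of the coordinates (iterated discriminants and resultants) have coefficients in `E`, so
that at the end we have a finite family of elements of `E`, hence of `P`; the elimination does not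
involve the coordinates of `L`, and the degrees do not grow with the number of operations. `K` is
the function field of a component of the hypersurface over `L`; the equation of this component
divides `F` exactly once, since the characteristic is zero (`PR.KFL`).

(4) Varieties of dimension `r` and degree at most `δ` over `k` are fibred over the projective line,
with fibres of dimension `r - 1` and degree at most `δ` over `k (t)`.

(5) Radical extensions are toroidal over such a model where the exponents are invertible. A root of
a boundary function is a boundary function (`PR.POW`).

helper808, helper762 (the class of admissible pairs in characteristic `p`, see `AdmissibleTowers` of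
MP_b525bf_ag), with helper300, helper492, helper296, helper767, helper271, helper691 (towers),
helper8, helper134, helper262, helper277, helper322, helper394, helper426, helper505, helper572,
helper681, helper866, helper966, helper999 (log resolution on the projective line over Dedekind
domains), helper265, helper353, helper456, helper482, helper547, helper614, helper667, helper958 (log
resolution on arithmetic surfaces); built on the libraries of helper98 (regular models over
noetherian rings, quadratic transforms along a valuation) and on the library of the starting files
(helpers 558, 973, 418, 918, 968 and others). This theorem contains the former hand-ins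
`ArithmeticFibrations` and `FibrationsOverSurfaces` on this problem, and, with a better bound, the
theorem of helper98 on varieties of bounded degree over number fields (`ArithmeticBoundedDegree`).
-/

set_option autoImplicit false

open AlgebraicGeometry CategoryTheory Polynomial

namespace Pool.Agent.Results.MP_4d1008_ag.AdmissibleTowers

/-- The values at the point `x` of the polynomials over `E` of total degree at most `t`. -/
noncomputable def values (E : Type) {K : Type} [Field E] [Field K] [Algebra E K] {N : ℕ}
    (x : Fin N → K) (t : ℕ) : Submodule E K :=
  (MvPolynomial.restrictTotalDegree (Fin N) E t).map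
    (MvPolynomial.aeval x : MvPolynomial (Fin N) E →ₐ[E] K).toLinearMap

/-- The variety in the affine space over `E` with the generic point `x` (the zeros of the
polynomials over `E` which vanish at `x`), whose function field is `E (x)`, has dimension `r` and
degree at most `δ`: its Hilbert function, the dimension over `E` of the space of the polynomial
functions of degree at most `t` on the variety, is at most `δ * t ^ r / r! + O (t ^ (r - 1))`. -/
def DegreeAtMost (E : Type) {K : Type} [Field E] [Field K] [Algebra E K] {N : ℕ}
    (x : Fin N → K) (r δ : ℕ) : Prop :=
  Algebra.trdeg E (IntermediateField.adjoin E (Set.range x)) = r ∧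
    ∃ C : ℕ, ∀ t : ℕ, r.factorial * Module.finrank E (values E x t) ≤ δ * (t + C) ^ r

/-- The ring `𝓞[H 0 / H i, ..., H m / H i]`, where `𝓞` is the ring of integers of `k`: the chart
`H i ≠ 0` of the integral projective scheme over `𝓞` with the homogeneous coordinates `H`. -/
noncomputable def chart (k : Type) {κ : Type} [Field k] [NumberField k] [Field κ] [Algebra k κ]
    {m : ℕ} (H : Fin (m + 1) → κ) (i : Fin (m + 1)) :
    Subalgebra (NumberField.RingOfIntegers k) κ :=
  Algebra.adjoin (NumberField.RingOfIntegers k) (Set.range fun j => H j / H i)

/-- The homogeneous coordinates `H` define a projective arithmetic surface over the ring of integers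
of `k`, with function field `κ` (of transcendence degree one over `k`), which is regular at all
points at which `n` is invertible. -/
structure IsArithmeticSurface (k : Type) {κ : Type} [Field k] [NumberField k] [Field κ]
    [Algebra k κ] (n : ℕ) {m : ℕ} (H : Fin (m + 1) → κ) : Prop where
  ne_zero : ∀ i, H i ≠ 0
  generate : IntermediateField.adjoin k (Set.range fun j => H j / H 0) = ⊤
  trdeg : Algebra.trdeg k κ = 1
  regular : ∀ i (𝔭 : Ideal (chart k H i)) [𝔭.IsPrime], ((n : ℕ) : chart k H i) ∉ 𝔭 →
    IsRegularLocalRing (Localization.AtPrime 𝔭)

/-- All prime numbers up to `D` divide `n`. -/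
def PrimesDvd (D n : ℕ) : Prop := ∀ p : ℕ, p.Prime → p ≤ D → p ∣ n

/-- The smallest class of pairs `(K, P)`, where `K` is an extension of the number field `k` and `P`
is a set of elements of `K`, with the following properties. -/
inductive IsAdmissible (k : Type) [Field k] [NumberField k] (n : ℕ) :
    (K : Type) → [Field K] → [Algebra k K] → Set K → Prop
  /-- The number field `k`. -/
  | base : IsAdmissible k n k Set.univ
  /-- The field of rational functions in one variable. -/
  | line (κ : Type) [Field κ] [Algebra k κ] (t : κ) (ht : Transcendental k t)
      (h : IntermediateField.adjoin k {t} = ⊤) : IsAdmissible k n κ Set.univ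
  /-- Function fields of arithmetic surfaces which are regular at all points at which `n` is
  invertible. -/
  | surface (κ : Type) [Field κ] [Algebra k κ] (m : ℕ) (H : Fin (m + 1) → κ)
      (hH : IsArithmeticSurface k n H) : IsAdmissible k n κ Set.univ
  /-- Function fields of curves over `k` of degree at most `δ`, where all prime numbers up to
  `δ ^ 2` divide `n`. -/
  | curve (κ : Type) [Field κ] [Algebra k κ] (m δ : ℕ) (y : Fin m → κ)
      (h : IntermediateField.adjoin k (Set.range y) = ⊤) (hδ : DegreeAtMost k y 1 δ)
      (hp : PrimesDvd (δ ^ 2) n) : IsAdmissible k n κ Set.univ
  /-- **Varieties of bounded degree.** Let `K` be the function field of an affine variety over `k`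
  with the generic point `x`, of dimension `r ≥ 1` and degree at most `δ`, where all prime numbers
  up to `(s * δ) ^ 2 ^ (r - 1)` divide `n`. Then `(K, P)` is in the class for the set `P` of the
  polynomials over `k` of degree at most `s` in the `x i`. -/
  | variety (K : Type) [Field K] [Algebra k K] (N r δ s : ℕ) (x : Fin N → K)
      (hx : IntermediateField.adjoin k (Set.range x) = ⊤) (hr : 1 ≤ r) (hδ : DegreeAtMost k x r δ)
      (hs : 1 ≤ s) (hp : PrimesDvd ((s * δ) ^ 2 ^ (r - 1)) n) :
      IsAdmissible k n K
        {z | ∃ G : MvPolynomial (Fin N) k, G.totalDegree ≤ s ∧ z = MvPolynomial.aeval x G}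
  /-- **Families of bounded degree.** Let `(L, P)` be in the class, and let `E` be a field contained
  in `P`. Let `K` be generated over `L` by `y 1, ..., y N` and have transcendence degree `r` over
  `L`, and let `y` be the generic point of a variety over `E` of dimension `r` and degree at most
  `δ`. (So `K` is the function field of a component of the product over `E` of a variety with the
  function field `L` and of this variety.) Suppose that all prime numbers up to
  `(s * δ) ^ 2 ^ r` divide `n`, or that `N ≤ r + 1` (the variety is a hypersurface, or the affine
  space) and all prime numbers up to `(max s δ) ^ 2 ^ (N - 1)` divide `n`. Then the polynomials over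
  `E` of degree at most `s` in the `y i` can be added to `P`. -/
  | family (L K E : Type) [Field L] [Field K] [Field E] [Algebra k L] [Algebra k K]
      [Algebra L K] [IsScalarTower k L K] [Algebra E L] [Algebra E K] [IsScalarTower E L K]
      (P : Set L) (h : IsAdmissible k n L P) (hE : ∀ a : E, algebraMap E L a ∈ P)
      (N r δ s : ℕ) (y : Fin N → K) (hy : IntermediateField.adjoin L (Set.range y) = ⊤)
      (hr : Algebra.trdeg L K = r) (hδ : DegreeAtMost E y r δ) (hs : 1 ≤ s)
      (hp : PrimesDvd ((s * δ) ^ 2 ^ r) n ∨
        (N ≤ r + 1 ∧ PrimesDvd ((max s δ) ^ 2 ^ (N - 1)) n)) :
      IsAdmissible k n K (algebraMap L K '' P ∪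
        {z | ∃ G : MvPolynomial (Fin N) E, G.totalDegree ≤ s ∧ z = MvPolynomial.aeval y G})
  /-- **Adjoining one element.** Let `(L, P)` be in the class, and let `Φ` be a set of nonzero
  polynomials over `L` of degree at most `Δ`, where all prime numbers up to `Δ` divide `n`, which
  contains `X`, is closed under derivatives, whose constant members are in `P`, and such that for
  `f`, `g` in `Φ`, where `f` is not constant, there is a nonzero polynomial `Q` of degree at most
  `Δ` (for example the characteristic polynomial of `g` modulo `f`) whose nonzero coefficients are
  in `P`, such that `f` divides `Q (g)`. Let `K = L (z)`, where `z` is transcendental over `L` or a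
  zero of a member of `Φ`. Then the values at `z` of the members of `Φ` can be added to `P`. -/
  | element (L K : Type) [Field L] [Field K] [Algebra k L] [Algebra k K] [Algebra L K]
      [IsScalarTower k L K] (P : Set L) (h : IsAdmissible k n L P) (Δ : ℕ)
      (hΔ : PrimesDvd Δ n)
      (Φ : Set L[X]) (h0 : ∀ f ∈ Φ, f ≠ 0) (hdeg : ∀ f ∈ Φ, f.natDegree ≤ Δ) (hX : X ∈ Φ)
      (hder : ∀ f ∈ Φ, 1 ≤ f.natDegree → derivative f ∈ Φ)
      (hconst : ∀ f ∈ Φ, f.natDegree = 0 → f.coeff 0 ∈ P)
      (hQ : ∀ f ∈ Φ, ∀ g ∈ Φ, 1 ≤ f.natDegree → ∃ Q : L[X], Q ≠ 0 ∧ Q.natDegree ≤ Δ ∧
        f ∣ Q.comp g ∧ ∀ i, Q.coeff i ≠ 0 → Q.coeff i ∈ P)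
      (z : K) (hz : IntermediateField.adjoin L {z} = ⊤)
      (hz' : Transcendental L z ∨ ∃ f ∈ Φ, aeval z f = 0) :
      IsAdmissible k n K (algebraMap L K '' P ∪ {y | ∃ f ∈ Φ, y = aeval z f})
  /-- **Radicals.** Let `(L, P)` be in the class, and let `K` be generated over `L` by elements
  `w j ≠ 0` such that `(w j) ^ (m j)` is in `P`, for an exponent `m j ≥ 1` whose prime factors
  divide `n`. Then the `w j` can be added to `P`. -/
  | radical (L K : Type) [Field L] [Field K] [Algebra k L] [Algebra k K] [Algebra L K]
      [IsScalarTower k L K] (P : Set L) (h : IsAdmissible k n L P) (g : ℕ) (w : Fin g → K)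
      (m : Fin g → ℕ) (hw0 : ∀ j, w j ≠ 0) (hm0 : ∀ j, m j ≠ 0)
      (hm : ∀ j, ∀ p : ℕ, p.Prime → p ∣ m j → p ∣ n)
      (hw : ∀ j, ∃ z ∈ P, w j ^ m j = algebraMap L K z)
      (hK : IntermediateField.adjoin L (Set.range w) = ⊤) :
      IsAdmissible k n K (algebraMap L K '' P ∪ Set.range w)
  /-- **Products and roots.** If `(K, P)` is in the class, and each nonzero element of `Q` has a
  power, with an exponent `m ≥ 1`, which is a product of (positive or negative) powers of elements
  of `P`, then `(K, Q)` is in the class. -/
  | saturation (K : Type) [Field K] [Algebra k K] (P Q : Set K) (h : IsAdmissible k n K P)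
      (hQ : ∀ z ∈ Q, z ≠ 0 → ∃ m : ℕ, m ≠ 0 ∧ ∃ (l : ℕ) (a : Fin l → K) (e : Fin l → ℤ),
        (∀ i, a i ∈ P) ∧ z ^ m = ∏ i, a i ^ e i) :
      IsAdmissible k n K Q

/-- Finite families of elements of `P` are boundary functions on log regular models. -/
theorem rmk_of_admissible (k : Type) [Field k] [NumberField k] (n : ℕ) (hn : n ≠ 0) (K : Type)
    [Field K] [Algebra k K] (P : Set K) (h : IsAdmissible k n K P)
    (R : Type) [CommRing R] [IsDedekindDomain R] [Algebra R k] [IsFractionRing R k]
    [Algebra (NumberField.RingOfIntegers k) R] [IsScalarTower (NumberField.RingOfIntegers k) R k]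
    (hu : IsUnit ((n : ℕ) : R))
    (hs : ∀ c : R, ∃ (m : ℕ) (a : NumberField.RingOfIntegers k),
      ((n : ℕ) : R) ^ m * c = algebraMap (NumberField.RingOfIntegers k) R a) :
    Pool.Agent.N808.PR.RMk R k P := by
  induction h with
  | base => exact Pool.Agent.N808.PR.rmk_base Pool.Agent.N98.RM.hasRM_dedekind
  | line κ t ht h =>
    let _ : Algebra R κ := ((algebraMap k κ).comp (algebraMap R k)).toAlgebra
    have h1 : IsScalarTower R k κ := IsScalarTower.of_algebraMap_eq fun _ => rfl
    exact Pool.Agent.N808.PR.rmk_base (Pool.Agent.N808.AS.hasRM_line R k κ t ht h)
  | surface κ m H hH =>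
    let _ : Algebra R κ := ((algebraMap k κ).comp (algebraMap R k)).toAlgebra
    have h1 : IsScalarTower R k κ := IsScalarTower.of_algebraMap_eq fun _ => rfl
    exact Pool.Agent.N808.PR.rmk_base (Pool.Agent.N808.PR.hasRM_surf
      (O := NumberField.RingOfIntegers k) (F := k) R n hn hu hs hH.trdeg.le H hH.ne_zero
      hH.generate hH.regular)
  | curve κ m δ y h hδ hp =>
    obtain ⟨htr, C, hC⟩ := hδ
    let _ : Algebra R κ := ((algebraMap k κ).comp (algebraMap R k)).toAlgebra
    have h1 : IsScalarTower R k κ := IsScalarTower.of_algebraMap_eq fun _ => rfl
    refine Pool.Agent.N808.PR.rmk_base (Pool.Agent.N808.PR.hasRM_crv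
      (O := NumberField.RingOfIntegers k) (F := k) R n hn hu hs y h ?_ δ C hC
      (Pool.Agent.N808.PR.isUnit_factorial_of_primes hu _ hp))
    rw [h] at htr
    rw [← htr]
    exact (IntermediateField.topEquiv (F := k) (E := κ)).trdeg_eq.symm
  | variety K N r δ s x hx hr hδ hs1 hp =>
    obtain ⟨htr, C, hC⟩ := hδ
    refine Pool.Agent.N808.PR.abs_rmk x hx r hr ?_ δ C s hs1 hC
      (Pool.Agent.N808.PR.isUnit_factorial_of_primes hu _ hp)
    rw [hx] at htr
    rw [← htr]
    exact (IntermediateField.topEquiv (F := k) (E := K)).trdeg_eq.symm
  | family L K E P h hE N r δ s y hy hr hδ hs1 hp ih =>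
    obtain ⟨htr, C, hC⟩ := hδ
    rcases hp with hp | ⟨hN, hp⟩
    · exact Pool.Agent.N808.PR.rmk_fam Pool.Agent.N808.PR.t_KFL Pool.Agent.N808.PR.t_SQF
        (Pool.Agent.N808.PR.t_RHC Pool.Agent.N808.PR.t_RTN) ih hE y hy r hr htr δ C s hs1 hC
        (Pool.Agent.N808.PR.isUnit_factorial_of_primes hu _ hp)
    · exact Pool.Agent.N808.PR.rmk_fam3 Pool.Agent.N808.PR.t_RTN Pool.Agent.N808.PR.t_KFL
        Pool.Agent.N808.PR.t_SQF (Pool.Agent.N808.PR.t_RHC Pool.Agent.N808.PR.t_RTN) ih hE y hy r
        hN hr htr δ C s hs1 hC (Pool.Agent.N808.PR.isUnit_factorial_of_primes hu _ hp)
  | element L K P h Δ hΔ Φ h0 hdeg hX hder hconst hQ z hz hz' ih =>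
    exact Pool.Agent.N808.PR.rmk_root Pool.Agent.N808.PR.root1 ih Δ
      (Pool.Agent.N808.PR.isUnit_factorial_of_primes hu _ hΔ) Φ h0 hdeg hX hder hconst hQ z hz hz'
  | radical L K P h g w m hw0 hm0 hm hw hK ih =>
    exact Pool.Agent.N808.PR.rmk_rad ih w hw0 m
      (fun j => Pool.Agent.N808.PR.isUnit_of_primes hu _ (hm0 j) (hm j)) hw hK
  | saturation K P Q h hQ ih =>
    exact Pool.Agent.N808.PR.rmk_sat' Pool.Agent.N808.PR.t_POW ih hQ

/-- Let `k` be a number field, `n ≥ 1`, and let `(K, P)` be a pair of an extension of `k` and a set
of its elements which is obtained from function fields of arithmetic surfaces by the operations of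
`IsAdmissible`. Then for every integral scheme `Y` of finite type over `ℤ` whose function field is
isomorphic to `K` there is an integral scheme `X'`, proper over `ℤ`, with function field isomorphic
to that of `Y`, such that the local rings of `X'` at all points whose residue characteristic does
not divide `n` (it is `0`, or a prime number which does not divide `n`) are regular. -/
theorem result (k : Type) [Field k] [NumberField k] (n : ℕ) (hn : n ≠ 0) (K : Type) [Field K]
    [Algebra k K] (P : Set K) (hP : IsAdmissible k n K P)
    (Y : Scheme.{0}) (_ : IsIntegral Y) (f : Y ⟶ Spec (CommRingCat.of ℤ))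
    (_ : LocallyOfFiniteType f) (_ : QuasiCompact f) (_ : Nonempty (Y.functionField ≃+* K)) :
    ∃ (X' : Scheme.{0}) (_ : IsIntegral X') (g : X' ⟶ Spec (CommRingCat.of ℤ)),
      IsProper g ∧
      (∀ x : X', ¬ ringChar (IsLocalRing.ResidueField (X'.presheaf.stalk x)) ∣ n →
        (((Module.finrank (IsLocalRing.ResidueField (X'.presheaf.stalk x))
            (IsLocalRing.CotangentSpace (X'.presheaf.stalk x)) : ℕ∞)) : WithBot ℕ∞)
          = ringKrullDim (X'.presheaf.stalk x)) ∧
      Nonempty (X'.functionField ≃+* Y.functionField) := by
  obtain ⟨ε⟩ := ‹Nonempty (Y.functionField ≃+* K)›
  obtain ⟨X', hX', g, h1, h2, ⟨h3⟩⟩ := Pool.Agent.N808.PR.exists_of_rmk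
    (O := NumberField.RingOfIntegers k) (F := k) n hn P
    (fun R _ _ _ _ _ _ hu hs => rmk_of_admissible k n hn K P hP R hu hs)
  refine ⟨X', hX', g, h1, fun x hx => ?_, ⟨h3.trans ε.symm⟩⟩
  have h4 := h2 x (Pool.Agent.N808.PR.isUnit_of_not_dvd _ n hx)
  rw [← (IsRegularLocalRing.iff_finrank_cotangentSpace _).1 h4]
  rfl

end Pool.Agent.Results.MP_4d1008_ag.AdmissibleTowers
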