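import Pool.Agent.N762.FP.Root2
import Pool.Agent.N808.PR.Abs
import Pool.Agent.W418.Z.Reg

/-!
MP_4d1008_ag: regular models, proper over `ℤ`, in all dimensions, of the integral schemes of finite
type over a finite field `k` of characteristic `p` whose function fields are constructed from
function fields of surfaces over `k` by products, by families of varieties of bounded degree, by
adjoining zeros of polynomials of degree less than `p` with controlled discriminants, and by
radicals. The bounds for `p` do not depend on the dimension of the scheme.

The theorem is about the pairs `(K, P)` of a field `K` and a set `P` of elements of `K` which are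
obtained from the pairs `(E, E)`, where `E` is the function field of a smooth projective surface
over `k`, and from varieties of bounded degree over `k`, by finitely many of the operations of
`IsAdmissible`, in any order. Each integral scheme
of finite type over `ℤ` with the function field `K` is birational to a regular integral scheme which
is proper over `ℤ`.

Examples.

* Every scheme of finite type over `ℤ` whose function field is that of a variety over `k` of
  dimension `r ≥ 2` and degree at most `δ`, where `δ ^ 2 ^ (r - 2) < p` (operation `variety`), and
  the radical coverings of such varieties of arbitrary degree prime to `p` along products of forms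
  of degree at most `s`, where `(s * δ) ^ 2 ^ (r - 2) < p`.

* Let `S` be a smooth projective surface over `k` and `p ≥ 5`. The fibre products over `S` of any
  number of Weierstrass fibrations `y ^ 2 = x ^ 3 + a * x + b`, where `a` and `b` are rational
  functions on `S`.

* The fibre products over `S` of any number of varieties `Y i ⊆ S × P ^ (N i)` whose fibres over
  `S` have dimension `r i` and degree at most `δ i`, where `(δ i) ^ 2 ^ (r i) < p` for each `i`, and
  the products over `k` of such fibre products for different surfaces; the coverings of these
  varieties which are given by radicals, with exponents prime to `p`, of products of forms of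
  bounded degree on the factors.

* The cubic coverings `z ^ 3 + a * z + b = 0` (`p ≥ 5`) of a variety with function field `L`, where
  `a`, `b` and `4 * a ^ 3 + 27 * b ^ 2` are in `P`. The Legendre fibrations
  `y ^ 2 = x * (x - a) * (x - b)` (`p ≠ 2`) over a variety with function field `L`, where `a`, `b`
  and `a - b` are in `P`. The coverings `z ^ p - z = a * x ^ m`, where `a` is in `P`, `x` is
  transcendental over `L` and `p ∤ m`. The quadric bundles over a variety with function field `L`
  (`p ≠ 2`), where the leading principal minors of the symmetric matrix over `L` are in `P`. The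
  coverings `z ^ p = f (a ^ p, b ^ p, x 1, ..., x n)`, where `a`, `b` are rational functions on
  the surface, and `f` is a polynomial of degree at most `δ` in `x 1, ..., x n`, with
  `δ ^ 2 ^ n < p`.

The proof: an element of `P` is a boundary function on a model if its zeros and poles are in the
boundary. For each pair of the class there are smooth projective models over `k` with normal
crossings boundary on which given finitely many elements of `P` are boundary functions; the
operations are treated in the library of helper762 (`Pool.Agent.N762.FP`), see the hand-in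
`AdmissibleTowers` on the problem MP_b525bf_ag for a description. A smooth projective model over a
finite field is regular and proper over `ℤ`.

The case `variety` is the theorem of helper98 on varieties of bounded degree: they are fibred over
the plane (the finite field case of `ArithmeticBoundedDegree` on this problem).

helper762, helper98, helper808; built on the library of helper98 and on the library of the starting
files (helpers 558, 214, 973, 418, 968 and others).
-/

set_option autoImplicit false

open AlgebraicGeometry CategoryTheory Polynomial Pool.Agent.W558 Pool.Agent.N98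

namespace Pool.Agent.Results.MP_4d1008_ag.AdmissibleTowersFinite

/-- The values at the point `x` of the polynomials over `F` of total degree at most `t`. -/
noncomputable def values (F : Type) {K : Type} [Field F] [Field K] [Algebra F K] {N : ℕ}
    (x : Fin N → K) (t : ℕ) : Submodule F K :=
  (MvPolynomial.restrictTotalDegree (Fin N) F t).map
    (MvPolynomial.aeval x : MvPolynomial (Fin N) F →ₐ[F] K).toLinearMap

/-- The variety in the affine space over `F` with the generic point `x` (the zeros of the
polynomials over `F` which vanish at `x`), whose function field is `F (x)`, has dimension `r` and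
degree at most `δ`: its Hilbert function, the dimension over `F` of the space of the polynomial
functions of degree at most `t` on the variety, is at most `δ * t ^ r / r! + O (t ^ (r - 1))`. -/
def DegreeAtMost (F : Type) {K : Type} [Field F] [Field K] [Algebra F K] {N : ℕ}
    (x : Fin N → K) (r δ : ℕ) : Prop :=
  Algebra.trdeg F (IntermediateField.adjoin F (Set.range x)) = r ∧
    ∃ C : ℕ, ∀ t : ℕ, r.factorial * Module.finrank F (values F x t) ≤ δ * (t + C) ^ r

/-- The smallest class of pairs `(K, P)`, where `K` is an extension of the field `k` and `P` is a
set of elements of `K`, with the following properties. -/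
inductive IsAdmissible (p : ℕ) (k : Type) [Field k] :
    (K : Type) → [Field K] → [Algebra k K] → Set K → Prop
  /-- If `E` is the function field of a smooth projective surface, then `(E, E)` is in the class.
  -/
  | surface (E : Type) [Field E] [Algebra k E] (h2 : Algebra.trdeg k E = 2)
      (hE : HasModel k E) : IsAdmissible p k E Set.univ
  /-- If each finite family of nonzero elements of `P` has its zeros and poles in a simple normal
  crossings divisor on some smooth projective variety with function field `E`, then `(E, P)` is in
  the class. (Examples: `E = k`; function fields of curves, with `P = E`.) -/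
  | models (E : Type) [Field E] [Algebra k E] (P : Set E)
      (hE : ∀ (m : ℕ) (g : Fin m → E), (∀ b, g b ∈ P) → (∀ b, g b ≠ 0) →
        ∃ (N L : ℕ) (H : Fin (N + 1) → E) (x : Fin (N + 1) → Fin L → E)
          (Γ : Fin m → Fin L → ℤ), IsLogModel (k := k) g H x Γ) :
      IsAdmissible p k E P
  /-- **Varieties of bounded degree.** Let `K` be the function field of an affine variety over `k`
  with the generic point `x`, of dimension `r ≥ 2` and degree at most `δ`, where
  `(s * δ) ^ 2 ^ (r - 2) < p`. Then `(K, P)` is in the class for the set `P` of the polynomials over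
  `k` of degree at most `s` in the `x i`. -/
  | variety (K : Type) [Field K] [Algebra k K] (N r δ s : ℕ) (x : Fin N → K)
      (hx : IntermediateField.adjoin k (Set.range x) = ⊤) (hr : 2 ≤ r) (hδ : DegreeAtMost k x r δ)
      (hs : 1 ≤ s) (hp : (s * δ) ^ 2 ^ (r - 2) < p) :
      IsAdmissible p k K
        {z | ∃ G : MvPolynomial (Fin N) k, G.totalDegree ≤ s ∧ z = MvPolynomial.aeval x G}
  /-- **Products.** If `(K₁, P₁)` and `(K₂, P₂)` are in the class, and `K` is the field of fractions
  of the image of `K₁ ⊗ K₂`, where the homomorphism from `K₁ ⊗ K₂` to `K` is injective (if `k` is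
  algebraically closed, `K` is the function field of the product of varieties with the function
  fields `K₁` and `K₂`), then `(K, P₁ ∪ P₂)` is in the class. -/
  | product (K₁ K₂ K : Type) [Field K₁] [Field K₂] [Field K] [Algebra k K₁] [Algebra k K₂]
      [Algebra k K] (P₁ : Set K₁) (P₂ : Set K₂) (h₁ : IsAdmissible p k K₁ P₁)
      (h₂ : IsAdmissible p k K₂ P₂) (ι₁ : K₁ →ₐ[k] K) (ι₂ : K₂ →ₐ[k] K)
      (hι : Function.Injective (Algebra.TensorProduct.productMap ι₁ ι₂))
      (hK : IntermediateField.adjoin k (Set.range ι₁ ∪ Set.range ι₂) = ⊤) :
      IsAdmissible p k K (ι₁ '' P₁ ∪ ι₂ '' P₂)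
  /-- **Families of bounded degree.** Let `(L, P)` be in the class, and let `E` be a field contained
  in `P`. Let `F` be a field of `p ^ e`-th powers of elements of `E` over which `E` is algebraic,
  for example `E ^ (p ^ e)` (or `E` if `e = 0`). Let `K` be generated over `L` by
  `y 1, ..., y N` and have transcendence degree `r` over `L`, and let the exponents `m i` be not
  divisible by `p ^ (e + 1)` and such that `(y 1 ^ m 1, ..., y N ^ m N)` is the generic point of a
  variety over `F` of dimension `r` and degree at most `δ`. (So `K` is the function field of a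
  component of the product over `E` of a variety with the function field `L` and of a variety over
  `E` which is a component of the inverse image of a variety of dimension `r` and degree at most `δ`
  over `F`.) Suppose that `(s * δ) ^ 2 ^ r < p` and `F` is infinite, or that
  `(max s δ) ^ 2 ^ (N - 1) < p`. Then the `y i` and the polynomials over `F` of degree at most `s`
  in the `y i ^ m i` can be added to `P`. -/
  | family (L K F E : Type) [Field L] [Field K] [Field F] [Field E] [Algebra k L] [Algebra k K]
      [Algebra L K] [IsScalarTower k L K] [Algebra E L] [Algebra E K] [IsScalarTower E L K]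
      [Algebra F E] [Algebra F K] [IsScalarTower F E K] [Algebra.IsAlgebraic F E]
      (P : Set L) (h : IsAdmissible p k L P) (hE : ∀ a : E, algebraMap E L a ∈ P)
      (e : ℕ) (hF : ∀ a : F, ∃ b : E, b ^ p ^ e = algebraMap F E a)
      (N r δ s : ℕ) (y : Fin N → K) (hy : IntermediateField.adjoin L (Set.range y) = ⊤)
      (hr : Algebra.trdeg L K = r) (m : Fin N → ℕ) (hm : ∀ i, ¬ p ^ (e + 1) ∣ m i)
      (hδ : DegreeAtMost F (fun i => y i ^ m i) r δ) (hs : 1 ≤ s)
      (hp : (Infinite F ∧ (s * δ) ^ 2 ^ r < p) ∨ max s δ ^ 2 ^ (N - 1) < p) :
      IsAdmissible p k K (algebraMap L K '' P ∪ (Set.range y ∪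
        {z | ∃ G : MvPolynomial (Fin N) F,
          G.totalDegree ≤ s ∧ z = MvPolynomial.aeval (fun i => y i ^ m i) G}))
  /-- **Adjoining one element.** Let `(L, P)` be in the class, and let `Φ` be a set of nonzero
  polynomials over `L` of degree at most `Δ < p`, which contains `X`, is closed under derivatives,
  whose constant members are in `P`, and such that for `f`, `g` in `Φ`, where `f` is not constant,
  there is a nonzero polynomial `Q` of degree at most `Δ` (for example the characteristic
  polynomial of `g` modulo `f`) whose nonzero coefficients are in `P`, such that `f` divides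
  `Q (g)`. Let `K = L (z)`, where `z` is transcendental over `L` or a zero of a member of `Φ`. Then
  the values at `z` of the members of `Φ` can be added to `P`. -/
  | element (L K : Type) [Field L] [Field K] [Algebra k L] [Algebra k K] [Algebra L K]
      [IsScalarTower k L K] (P : Set L) (h : IsAdmissible p k L P) (Δ : ℕ) (hΔ : Δ < p)
      (Φ : Set L[X]) (h0 : ∀ f ∈ Φ, f ≠ 0) (hdeg : ∀ f ∈ Φ, f.natDegree ≤ Δ) (hX : X ∈ Φ)
      (hder : ∀ f ∈ Φ, 1 ≤ f.natDegree → derivative f ∈ Φ)
      (hconst : ∀ f ∈ Φ, f.natDegree = 0 → f.coeff 0 ∈ P)
      (hQ : ∀ f ∈ Φ, ∀ g ∈ Φ, 1 ≤ f.natDegree → ∃ Q : L[X], Q ≠ 0 ∧ Q.natDegree ≤ Δ ∧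
        f ∣ Q.comp g ∧ ∀ n, Q.coeff n ≠ 0 → Q.coeff n ∈ P)
      (z : K) (hz : IntermediateField.adjoin L {z} = ⊤)
      (hz' : Transcendental L z ∨ ∃ f ∈ Φ, aeval z f = 0) :
      IsAdmissible p k K (algebraMap L K '' P ∪ {y | ∃ f ∈ Φ, y = aeval z f})
  /-- **Radicals.** Let `(L, P)` be in the class, and let `K` be generated over `L` by elements
  `w j ≠ 0` such that `(w j) ^ (n j)` is in `P`, for an exponent `n j` prime to `p`. Then the `w j`
  can be added to `P`. -/
  | radical (L K : Type) [Field L] [Field K] [Algebra k L] [Algebra k K] [Algebra L K]
      [IsScalarTower k L K] (P : Set L) (h : IsAdmissible p k L P) (g : ℕ) (w : Fin g → K)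
      (n : Fin g → ℕ) (hw0 : ∀ j, w j ≠ 0) (hn : ∀ j, ¬ p ∣ n j)
      (hw : ∀ j, ∃ z ∈ P, w j ^ n j = algebraMap L K z)
      (hK : IntermediateField.adjoin L (Set.range w) = ⊤) :
      IsAdmissible p k K (algebraMap L K '' P ∪ Set.range w)
  /-- **Products and roots.** If `(K, P)` is in the class, and each nonzero element of `Q` has a
  power which is a product of a constant and of (positive or negative) powers of elements of `P`,
  then `(K, Q)` is in the class. -/
  | saturation (K : Type) [Field K] [Algebra k K] (P Q : Set K) (h : IsAdmissible p k K P)
      (hQ : ∀ z ∈ Q, z ≠ 0 → ∃ n : ℕ, n ≠ 0 ∧ ∃ (c : k) (l : ℕ) (a : Fin l → K) (e : Fin l → ℤ),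
        (∀ i, a i ∈ P) ∧ z ^ n = algebraMap k K c * ∏ i, a i ^ e i) :
      IsAdmissible p k K Q

/-- Finite families of elements of `P` are boundary functions on log smooth models. -/
theorem mod_of_admissible (p : ℕ) [Fact p.Prime] (k : Type) [Field k] [PerfectField k]
    [CharP k p] (K : Type) [Field K] [Algebra k K] (P : Set K) (h : IsAdmissible p k K P) :
    Pool.Agent.N762.FP.Mod k P := by
  induction h with
  | surface E h2 hE =>
    exact Pool.Agent.N762.FP.mod_base (Pool.Agent.W418.LCI.hasLM_of_surface k E h2 hE)
  | models E P hE => exact Pool.Agent.N762.FP.mod_models hE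
  | variety K N r δ s x hx hr hδ hs hp =>
    obtain ⟨htr, C, hC⟩ := hδ
    refine Pool.Agent.N808.PR.mod_abs x hx r hr ?_ δ C s hs hC
      (factorial_ne_zero_of_lt p (Fact.out : p.Prime) hp)
    rw [hx] at htr
    rw [← htr]
    exact (IntermediateField.topEquiv (F := k) (E := K)).trdeg_eq.symm
  | product K₁ K₂ K P₁ P₂ h₁ h₂ ι₁ ι₂ hι hK ih₁ ih₂ =>
    exact Pool.Agent.N762.FP.mod_prod ι₁ ι₂ hι hK ih₁ ih₂
  | family L K F E P h hE e hF N r δ s y hy hr m hm hδ hs hp ih =>
    obtain ⟨htr, C, hC⟩ := hδ
    exact Pool.Agent.N762.FP.mod_fam p ih hE y m e hm hF hy r δ C htr hr hC s hs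
      (hp.imp (fun h => ⟨h.1, factorial_ne_zero_of_lt p (Fact.out : p.Prime) h.2⟩)
        (fun h => factorial_ne_zero_of_lt p (Fact.out : p.Prime) h))
  | element L K P h Δ hΔ Φ h0 hdeg hX hder hconst hQ z hz hz' ih =>
    exact Pool.Agent.N762.FP.mod_root ih Δ (factorial_ne_zero_of_lt p (Fact.out : p.Prime) hΔ) Φ
      h0 hdeg hX hder hconst hQ z hz hz'
  | radical L K P h g w n hw0 hn hw hK ih =>
    exact Pool.Agent.N762.FP.mod_rad p ih w hw0 n hn hw hK
  | saturation K P Q h hQ ih => exact Pool.Agent.N762.FP.mod_sat ih hQ

/-- Let `k` be a finite field of characteristic `p`, and let `(K, P)` be a pair of an extension of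
`k` and a set of its elements which is obtained from function fields of surfaces by the operations
of `IsAdmissible`. Then for every integral scheme `Y` of finite type over `ℤ` whose function field is
isomorphic to `K` there is a regular integral scheme `X'`, proper over `ℤ`, with function field
isomorphic to that of `Y`. -/
theorem result (p : ℕ) [Fact p.Prime] (k : Type) [Field k] [Finite k] [CharP k p] (K : Type)
    [Field K] [Algebra k K] (P : Set K) (hP : IsAdmissible p k K P)
    (Y : Scheme.{0}) (_ : IsIntegral Y) (f : Y ⟶ Spec (CommRingCat.of ℤ))
    (_ : LocallyOfFiniteType f) (_ : QuasiCompact f) (_ : Nonempty (Y.functionField ≃+* K)) :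
    ∃ (X' : Scheme.{0}) (_ : IsIntegral X') (g : X' ⟶ Spec (CommRingCat.of ℤ)),
      IsProper g ∧
      (∀ x : X',
        (((Module.finrank (IsLocalRing.ResidueField (X'.presheaf.stalk x))
            (IsLocalRing.CotangentSpace (X'.presheaf.stalk x)) : ℕ∞)) : WithBot ℕ∞)
          = ringKrullDim (X'.presheaf.stalk x)) ∧
      Nonempty (X'.functionField ≃+* Y.functionField) := by
  obtain ⟨ε⟩ := ‹Nonempty (Y.functionField ≃+* K)›
  obtain ⟨T, I, hT, hI, M, hFr, -⟩ := mod_of_admissible p k K P hP Empty (fun i => i.elim)
    (fun i => i.elim) (fun i => i.elim)
  obtain ⟨X', hX', g, h1, h2, ⟨h3⟩⟩ := Pool.Agent.W418.Z.regular_of_LM M (fun t z => by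
    obtain ⟨a, ha, b, hb, hb0, rfl⟩ := hFr t z
    exact ⟨a, ha, b, hb, hb0, (div_eq_mul_inv _ _).symm⟩)
  exact ⟨X', hX', g, h1, h2, ⟨h3.trans ε.symm⟩⟩

end Pool.Agent.Results.MP_4d1008_ag.AdmissibleTowersFinite
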