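import Pool.Agent.N864.GT.Mod7

/-!
MP_4d1008_ag: regular models, proper over `ℤ`, in every dimension, of the schemes birational to the
quotient of a projective scheme `X` over `O` (a domain finite over `ℤ`) by a finite group `G` whose
inertia groups are tame and cyclic, or of prime order (and possibly wild) with a condition on the
fixed scheme.

The field `K` is the function field of `X`, which is given by homogeneous coordinates `H j` in `K`:
its charts are the spectra of the rings `O[H 0 / H j, ..., H N / H j] ⊆ K`. The group `G` of
automorphisms of `K` over `O` maps linear forms to linear forms: it acts on `X`. For `O = ℤ` it can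
act on the field of constants of `K`. The local rings of `X` are considered as subrings of `K`. The
scheme `X` is regular, except perhaps at points with inertia groups of prime order, where it is
enough that the blowing up of the ideal of the fixed points is regular. There is no other condition
at the points with tame cyclic inertia groups, if the order of the inertia group is a product of
primes in `T`, the set of primes `l` such that no point of residue characteristic `l` has an inertia
group of order `l` (or a smaller set).
-/

set_option autoImplicit false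

open AlgebraicGeometry CategoryTheory

namespace Pool.Agent.Results.MP_4d1008_ag.GroupQuotients

section

variable {O K : Type} [CommRing O] [Field K] [Algebra O K]

/-- The ring `O[H 0 / H j, ..., H N / H j]` of the chart `H j ≠ 0`. -/
def chartRing (O : Type) {K : Type} [CommRing O] [Field K] [Algebra O K] {N : ℕ}
    (H : Fin (N + 1) → K) (j : Fin (N + 1)) : Subring K :=
  (Algebra.adjoin O (Set.range fun l => H l / H j)).toSubring

/-- The local ring at the prime `𝔮` of the subring `A` of the field `K`, as a subring of `K`. -/
noncomputable def localRing (A : Subring K) (𝔮 : Ideal A) [𝔮.IsPrime] : Subring K :=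
  (LocalSubring.ofPrime A 𝔮).toSubring

/-- The automorphism `σ` is in the inertia group of the point with the local ring `R`: the ring `R`
is stable under `σ`, which acts trivially on its residue field. -/
def IsFixed (σ : K ≃ₐ[O] K) (R : Subring K) : Prop :=
  ∀ x : R, ∃ y : R, (y : K) = σ x ∧ ¬ IsUnit (y - x)

/-- The ideal of the fixed scheme of `σ` in `R`, generated by the elements `σ x - x`. -/
def fixedIdeal (σ : K ≃ₐ[O] K) (R : Subring K) : Ideal R :=
  Ideal.span {y : R | ∃ x : R, (y : K) = σ x - x}

/-- `σ` acts by a scalar `u` on the ideal of its fixed scheme modulo the square of this ideal. -/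
def ActsByScalar (σ : K ≃ₐ[O] K) (R : Subring K) : Prop :=
  ∃ u : R, ∀ y ∈ fixedIdeal σ R, ∀ y' : R, (y' : K) = σ y → y' - u * y ∈ fixedIdeal σ R ^ 2

/-- The ring `R[I / y]` of an affine chart of the blowing up of the ideal `I` of the fixed
scheme. -/
def chart (σ : K ≃ₐ[O] K) (R : Subring K) (y : R) : Subring K :=
  Subring.closure ((R : Set K) ∪ {x | ∃ b ∈ fixedIdeal σ R, x = (b : K) / y})

/-- The conditions on the generator `σ`, of prime order `p`, of the inertia group of the point with
the regular local ring `R`. Either `p` is invertible in `R` (tame inertia), and `p = 2` or `σ` acts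
by a scalar on the conormal module of its fixed scheme. Or `σ = 1 + t δ` on `R` (wild inertia),
where the ideal generated by the image of `δ` is the unit ideal, or it has a regular quotient and
`p = 2` or `σ` acts by a scalar on the conormal module of its fixed scheme. -/
def GeneratorCondition (p : ℕ) (σ : K ≃ₐ[O] K) (R : Subring K) : Prop :=
  (IsUnit (p : R) ∧ (p = 2 ∨ ActsByScalar σ R)) ∨
    ∃ (t : R) (δ : R → R), t ≠ 0 ∧ (∀ x : R, σ x = x + t * δ x) ∧
      (Ideal.span (Set.range δ) = ⊤ ∨
        (IsRegularLocalRing (R ⧸ Ideal.span (Set.range δ)) ∧ (p = 2 ∨ ActsByScalar σ R)))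

/-- The conditions on the generator `σ`, of prime order `p`, of the inertia group of the point with
the local ring `R`. Either the blowing up of the ideal of the fixed scheme of `σ` in `R` is regular,
and `p = 2` or `σ` acts by a scalar on the conormal module of its fixed scheme. Or `R` is regular
with the conditions above. -/
def PrimeCondition (p : ℕ) (σ : K ≃ₐ[O] K) (R : Subring K) : Prop :=
  ((∀ y ∈ fixedIdeal σ R, y ≠ 0 → IsRegularRing (chart σ R y)) ∧ (p = 2 ∨ ActsByScalar σ R)) ∨
    (IsRegularLocalRing R ∧ GeneratorCondition p σ R)

/-- The inertia group in `G` of the point with the local ring `R` is cyclic, generated by an element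
`τ`. Either `R` is regular and the order of `τ` is invertible in `R` and a product of primes in `T`
(in particular if `τ = 1`), or the order is a prime which is not in `T`, with the conditions
above. -/
def InertiaCondition (T : Set ℕ) (G : Subgroup (K ≃ₐ[O] K)) (R : Subring K) : Prop :=
  ∃ τ ∈ G, (∀ σ ∈ G, IsFixed σ R ↔ σ ∈ Subgroup.zpowers τ) ∧
    ((IsRegularLocalRing R ∧ IsUnit ((orderOf τ : ℕ) : R) ∧
        ∀ l : ℕ, l.Prime → l ∣ orderOf τ → l ∈ T) ∨
      ((orderOf τ).Prime ∧ orderOf τ ∉ T ∧ PrimeCondition (orderOf τ) τ R))

/-- The coordinates `H j ≠ 0` define a projective scheme `X` over `O` with the function field `K`,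
on which the finite group `G` acts by linear transformations, and the inertia groups of all points
of `X` satisfy the conditions above. -/
structure IsGoodAction (T : Set ℕ) {N : ℕ} (H : Fin (N + 1) → K) (G : Subgroup (K ≃ₐ[O] K)) :
    Prop where
  ne_zero : ∀ j, H j ≠ 0
  functionField : Subfield.closure (chartRing O H 0 : Set K) = ⊤
  finite : Finite G
  linear : ∀ σ ∈ G, ∀ j, σ (H j) ∈ Submodule.span O (Set.range H)
  inertia : ∀ j (𝔮 : Ideal (chartRing O H j)) [𝔮.IsPrime],
    InertiaCondition T G (localRing (chartRing O H j) 𝔮)

end

/-- Let `O` be a domain which is finite over the integers, `X` a projective scheme over `O` with the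
function field `K` and `G` a finite group acting on `X` over `O`, with the conditions above at the
points of `X` (for some set `T` of primes). Then every integral scheme `Y` of finite type over the
integers whose function field is the field `F` of the invariants of `G` in `K` has a regular model
`X'`, proper over the integers. -/
theorem result :
    ∀ (O : Type) [CommRing O] [IsDomain O] [Module.Finite ℤ O]
      -- the projective scheme `X` over `O`, with the action of the finite group `G`
      (K : Type) [Field K] [Algebra O K], Function.Injective (algebraMap O K) →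
      ∀ (N : ℕ) (H : Fin (N + 1) → K) (G : Subgroup (K ≃ₐ[O] K)) (T : Set ℕ),
      IsGoodAction T H G →
      -- the field of invariants
      ∀ (F : Subfield K), (∀ x, x ∈ F ↔ ∀ σ ∈ G, σ x = x) →
      -- every integral scheme of finite type over the integers with the function field `F`
      ∀ (Y : Scheme.{0}) (_ : IsIntegral Y) (s : Y ⟶ Spec (CommRingCat.of ℤ)),
      LocallyOfFiniteType s → QuasiCompact s → Nonempty (Y.functionField ≃+* F) →
      ∃ (X' : Scheme.{0}) (_ : IsIntegral X') (g : X' ⟶ Spec (CommRingCat.of ℤ)),
        IsProper g ∧
        (∀ x : X',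
          (((Module.finrank (IsLocalRing.ResidueField (X'.presheaf.stalk x))
              (IsLocalRing.CotangentSpace (X'.presheaf.stalk x)) : ℕ∞)) : WithBot ℕ∞)
            = ringKrullDim (X'.presheaf.stalk x)) ∧
        Nonempty (X'.functionField ≃+* Y.functionField) := by
  intro O _ _ _ K _ _ hO N H G T hG F hF Y _ s _ _ ⟨i⟩
  -- the inertia groups
  have key : ∀ (R : Subring K), InertiaCondition T G R →
      Pool.Agent.N864.GT.InertiaCondition7 T G.subtype R := by
    intro R hI
    have hord : ∀ g : G, orderOf g = orderOf (g : K ≃ₐ[O] K) := fun g =>
      (Subgroup.orderOf_coe g).symm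
    have hzp : ∀ g τ : G, (g : K ≃ₐ[O] K) ∈ Subgroup.zpowers (τ : K ≃ₐ[O] K) ↔
        g ∈ Subgroup.zpowers τ := by
      intro g τ
      constructor
      · rintro ⟨n, hn⟩
        exact ⟨n, Subtype.ext (by rw [← hn]; rfl)⟩
      · rintro ⟨n, rfl⟩
        exact ⟨n, rfl⟩
    obtain ⟨τ, hτ, hIτ, h⟩ := hI
    refine ⟨⟨τ, hτ⟩, fun g => (hIτ g g.2).trans (hzp g ⟨τ, hτ⟩), ?_⟩
    rw [hord ⟨τ, hτ⟩]
    exact h
  have hfin := hG.finite
  have hin := hG.inertia
  exact Pool.Agent.N864.GT10.grp_final7 hO H hG.ne_zero hG.functionField G hG.linear T
    (fun j 𝔮 h𝔮 => key _ (@hin j 𝔮 h𝔮)) F hF i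

end Pool.Agent.Results.MP_4d1008_ag.GroupQuotients
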